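import Mathlib
import Pool.Agent.Lib.helper11.Jacobi3

set_option autoImplicit false
open Polynomial

namespace Pool.Agent.Results.MP_27c522_an.Odd

/-- `p_n(z) = ∑_{k=0}^n (-1)^k (2k+1) z^{k(k+1)}` -/
noncomputable def p (n : ℕ) : ℝ[X] :=
  ∑ k ∈ Finset.range (n + 1), C ((-1) ^ k * (2 * k + 1) : ℝ) * X ^ (k * (k + 1))

theorem result (n : ℕ) (hn : 3 ≤ n) (hodd : Odd n) :
    {x : ℝ | (p n).eval x = 0}.encard = 2 ∧ (p n).roots.card = 2 := by
  obtain ⟨m, rfl⟩ := hodd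
  obtain ⟨r, hr, h⟩ := Pool.Agent.Jacobi3.pn_odd m
  have e : p (2 * m + 1) = Pool.Agent.Jacobi3.pn (2 * m + 1) := rfl
  have hp0 : p (2 * m + 1) ≠ 0 := fun h0 => by
    have := Pool.Agent.Jacobi3.pn_zero (2 * m + 1)
    rw [← e, h0] at this
    simp at this
  refine ⟨?_, by rw [e, h]; simp⟩
  have : {x : ℝ | (p (2 * m + 1)).eval x = 0} = {r, -r} := by
    ext x
    have h2 : x ∈ (p (2 * m + 1)).roots ↔ x = r ∨ x = -r := by rw [e, h]; simp
    rw [mem_roots hp0] at h2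
    simpa using h2
  rw [this]
  exact Set.encard_pair (ne_of_gt (by linarith))

end Pool.Agent.Results.MP_27c522_an.Odd
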